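import Mathlib

/-! Ultrametric spaces generated by labeled trees. -/

set_option autoImplicit false

namespace Pool.Agent.R790.Ult

universe u

/-- The labeled graph `T(l)` (with vertex set `X`) generates the distance of `X`: the labels are
nonnegative and for `u ≠ v` the distance of `u` and `v` is the maximum of the labels of the
vertices of each path from `u` to `v` (endpoints included). -/
def Generates {X : Type u} [Dist X] (T : SimpleGraph X) (l : X → ℝ) : Prop :=
  (∀ v, 0 ≤ l v) ∧ ∀ (u v : X) (p : T.Walk u v), p.IsPath → u ≠ v →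
    IsGreatest (l '' {w | w ∈ p.support}) (dist u v)

/-- `R` is a ray: its vertices can be enumerated without repetition as `x 0, x 1, ...` so that the
edges are exactly the pairs `x n, x (n + 1)`. -/
def IsRay {V : Type u} (R : SimpleGraph V) : Prop :=
  ∃ x : ℕ → V, Function.Bijective x ∧ ∀ i j, R.Adj (x i) (x j) ↔ (j = i + 1 ∨ i = j + 1)

/-- No ray is a subgraph of `T`. -/
def Rayless {V : Type u} (T : SimpleGraph V) : Prop :=
  ¬ ∃ x : ℕ → V, Function.Injective x ∧ ∀ n, T.Adj (x n) (x (n + 1))

/-- Exactly one vertex of `T` has degree greater than `2`. -/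
def Starlike {V : Type u} (T : SimpleGraph V) : Prop :=
  ∃! v, 2 < (T.neighborSet v).encard

/-- Condition (i): `X` is the completion of a totally bounded proper subset which is generated by
a labeled ray. -/
def CompletionOfRay (X : Type u) [MetricSpace X] : Prop :=
  ∃ X0 : Set X, X0 ≠ Set.univ ∧ TotallyBounded X0 ∧
    (∃ (R : SimpleGraph X0) (l : X0 → ℝ), IsRay R ∧ Generates R l) ∧
    CompleteSpace X ∧ Dense X0

/-- Condition (ii): `X` is compact and generated by a labeled starlike rayless tree. -/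
def CompactStarlike (X : Type u) [MetricSpace X] : Prop :=
  CompactSpace X ∧ ∃ (T : SimpleGraph X) (l : X → ℝ),
    T.IsTree ∧ Starlike T ∧ Rayless T ∧ Generates T l

theorem append_isPath {V : Type u} {T : SimpleGraph V} {u c v : V} {p : T.Walk u c}
    {q : T.Walk c v} (hp : p.IsPath) (hq : q.IsPath)
    (h : ∀ w, w ∈ p.support → w ∈ q.support → w = c) : (p.append q).IsPath := by
  rw [SimpleGraph.Walk.isPath_def] at hp hq ⊢
  rw [SimpleGraph.Walk.support_append, List.nodup_append]
  rw [← SimpleGraph.Walk.cons_tail_support q, List.nodup_cons] at hq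
  refine ⟨hp, hq.2, ?_⟩
  rintro a ha b hb rfl
  have h1 : a ∈ q.support := List.mem_of_mem_tail hb
  have h2 := h a ha h1
  rw [h2] at hb
  exact hq.1 hb

theorem acyclic_of_height {V : Type u} {T : SimpleGraph V} (h : V → ℕ)
    (hh : ∀ v a b, T.Adj v a → T.Adj v b → h a ≤ h v → h b ≤ h v → a = b) : T.IsAcyclic := by
  classical
  intro v p hp
  obtain ⟨w, hw, hmax⟩ := p.support.toFinset.exists_max_image h
    ⟨v, by simp⟩
  rw [List.mem_toFinset] at hw
  have hq := hp.rotate hw
  set q := p.rotate w hw with hqdef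
  have hmem : ∀ x, x ∈ q.support → h x ≤ h w := by
    intro x hx
    apply hmax
    rw [List.mem_toFinset]
    rw [hqdef] at hx
    exact (SimpleGraph.Walk.mem_support_rotate_iff p w hw).1 hx
  have hnil := hq.not_nil
  apply hq.snd_ne_penultimate
  apply hh w
  · exact q.adj_snd hnil
  · exact (q.adj_penultimate hnil).symm
  · exact hmem _ (q.getVert_mem_support _)
  · exact hmem _ (q.getVert_mem_support _)

section
variable {X : Type u} [MetricSpace X] [IsUltrametricDist X]

theorem exists_label {T : SimpleGraph X} {l : X → ℝ}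
    (hE : ∀ a b, T.Adj a b → dist a b ≤ max (l a) (l b)) {u v : X} (p : T.Walk u v)
    (huv : u ≠ v) : ∃ w ∈ p.support, dist u v ≤ l w := by
  induction p with
  | nil => exact absurd rfl huv
  | @cons u x v h p ih =>
    have h1 := hE u x h
    have h2 : ∃ w ∈ (SimpleGraph.Walk.cons h p).support, dist u x ≤ l w := by
      rcases le_max_iff.1 h1 with h3 | h3
      · exact ⟨u, by simp, h3⟩
      · exact ⟨x, by simp, h3⟩
    by_cases hxv : x = v
    · subst hxv
      exact h2
    · obtain ⟨w, hw, hw'⟩ := ih hxv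
      rcases le_max_iff.1 (IsUltrametricDist.dist_triangle_max u x v) with h3 | h3
      · obtain ⟨z, hz, hz'⟩ := h2
        exact ⟨z, hz, h3.trans hz'⟩
      · exact ⟨w, by rw [SimpleGraph.Walk.support_cons]; exact List.mem_cons_of_mem _ hw,
          h3.trans hw'⟩

theorem gen_of {T : SimpleGraph X} {l : X → ℝ} (hac : T.IsAcyclic) (hl : ∀ v, 0 ≤ l v)
    (hE : ∀ a b, T.Adj a b → dist a b ≤ max (l a) (l b))
    (hW : ∀ u v, u ≠ v → ∃ p : T.Walk u v, ∀ w ∈ p.support, l w ≤ dist u v) :
    Generates T l := by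
  classical
  refine ⟨hl, ?_⟩
  intro u v p hp huv
  obtain ⟨q, hq⟩ := hW u v huv
  have h1 : p = q.bypass := by
    have := (hac.subsingleton_path u v).elim ⟨p, hp⟩ ⟨q.bypass, q.bypass_isPath⟩
    exact congrArg Subtype.val this
  have h2 : ∀ w ∈ p.support, l w ≤ dist u v := by
    intro w hw
    rw [h1] at hw
    exact hq w (q.support_bypass_subset_support hw)
  constructor
  · obtain ⟨w, hw, hw'⟩ := exists_label hE p huv
    exact ⟨w, hw, le_antisymm (h2 w hw) hw'⟩
  · rintro _ ⟨w, hw, rfl⟩
    exact h2 w hw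

/-- In a totally bounded ultrametric space an infinite set contains close points. -/
theorem exists_close {s : Set X} (hs : TotallyBounded s) {ι : Type*} {A : Set ι}
    (hA : A.Infinite) (f : ι → X) (hf : ∀ i ∈ A, f i ∈ s) {ε : ℝ} (hε : 0 < ε) :
    ∃ i ∈ A, ∃ j ∈ A, i ≠ j ∧ dist (f i) (f j) < ε := by
  classical
  obtain ⟨t, ht, hst⟩ := Metric.totallyBounded_iff.1 hs ε hε
  have h1 : ∀ i ∈ A, ∃ y ∈ t, dist (f i) y < ε := by
    intro i hi
    have := hst (hf i hi)
    simp only [Set.mem_iUnion, Metric.mem_ball, exists_prop] at this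
    exact this
  have : Nonempty X := ⟨f hA.nonempty.some⟩
  choose! g hg1 hg2 using h1
  obtain ⟨i, hi, j, hj, hij, h2⟩ := hA.exists_ne_map_eq_of_mapsTo (f := g)
    (fun i hi => hg1 i hi) ht
  refine ⟨i, hi, j, hj, hij, ?_⟩
  refine lt_of_le_of_lt (IsUltrametricDist.dist_triangle_max (f i) (g i) (f j)) ?_
  rw [max_lt_iff]
  refine ⟨hg2 i hi, ?_⟩
  rw [h2, dist_comm]
  exact hg2 j hj

end

end Pool.Agent.R790.Ult
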