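import Pool.Agent.R790.Ult.Basic

/-! From rays to starlike trees. -/

set_option autoImplicit false

namespace Pool.Agent.R790.Ult

open Filter Topology

universe u

theorem ray_walk {V : Type u} {R : SimpleGraph V} {x : ℕ → V} (hx : Function.Injective x)
    (hadj : ∀ i j, R.Adj (x i) (x j) ↔ (j = i + 1 ∨ i = j + 1)) (i n : ℕ) :
    ∃ p : R.Walk (x i) (x (i + n)), p.IsPath ∧
      ∀ w, w ∈ p.support ↔ ∃ m, i ≤ m ∧ m ≤ i + n ∧ w = x m := by
  induction n with
  | zero =>
    refine ⟨SimpleGraph.Walk.nil, SimpleGraph.Walk.IsPath.nil, ?_⟩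
    intro w
    simp only [SimpleGraph.Walk.support_nil, List.mem_singleton, add_zero]
    constructor
    · rintro rfl
      exact ⟨i, le_rfl, le_rfl, rfl⟩
    · rintro ⟨m, h1, h2, rfl⟩
      rw [le_antisymm h2 h1]
  | succ n ih =>
    obtain ⟨p, hp, hp'⟩ := ih
    have h1 : R.Adj (x (i + n)) (x (i + (n + 1))) := (hadj _ _).2 (Or.inl (by omega))
    have h2 : x (i + (n + 1)) ∉ p.support := by
      rw [hp']
      rintro ⟨m, h3, h4, h5⟩
      have := hx h5
      omega
    refine ⟨p.concat h1, hp.concat h2 h1, ?_⟩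
    intro w
    rw [SimpleGraph.Walk.support_concat, List.mem_append, hp',
      List.mem_singleton]
    constructor
    · rintro (⟨m, h3, h4, rfl⟩ | rfl)
      · exact ⟨m, h3, by omega, rfl⟩
      · exact ⟨_, by omega, by omega, rfl⟩
    · rintro ⟨m, h3, h4, rfl⟩
      rcases Nat.lt_or_ge m (i + (n + 1)) with h5 | h5
      · exact Or.inl ⟨m, h3, by omega, rfl⟩
      · right
        congr 1
        omega

section tree

variable {X : Type u} [MetricSpace X] [IsUltrametricDist X] {y : ℕ → X} {L : ℕ → ℝ} {c : X}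

/-- suffix maxima -/
def Sfx (L : ℕ → ℝ) : Set ℕ := {s | ∀ m, s ≤ m → L m ≤ L s}

/-- the parent relation -/
def Par (y : ℕ → X) (L : ℕ → ℝ) (c : X) (u v : X) : Prop :=
  (∃ i, i ∉ Sfx L ∧ u = y i ∧ v = y (i + 1)) ∨ (∃ i, i ∈ Sfx L ∧ u = y i ∧ v = c)

theorem partA_aux (hy : Function.Injective y) (hyc : ∀ i, y i ≠ c) (hL : ∀ i, 0 ≤ L i)
    (hcov : ∀ u, u = c ∨ ∃ i, u = y i)
    (A1 : ∀ i j, i < j → IsGreatest (L '' Set.Icc i j) (dist (y i) (y j)))
    (hlim : Tendsto y atTop (𝓝 c)) :
    ∃ (T : SimpleGraph X) (l : X → ℝ), T.IsTree ∧ Starlike T ∧ Rayless T ∧ Generates T l := by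
  classical
  have hpos : ∀ i, 0 < dist (y i) c := fun i => dist_pos.2 (hyc i)
  -- distances to the limit
  have hev : ∀ i N, ∃ j, N ≤ j ∧ i < j ∧ dist (y i) (y j) = dist (y i) c := by
    intro i N
    have h1 : ∀ᶠ j in atTop, dist (y j) c < dist (y i) c := by
      have := (tendsto_iff_dist_tendsto_zero.1 hlim).eventually_lt_const (hpos i)
      exact this
    obtain ⟨j, hj1, hj2, hj3⟩ := (h1.and ((eventually_ge_atTop N).and
      (eventually_gt_atTop i))).exists
    refine ⟨j, hj2, hj3, ?_⟩
    have h2 : dist (y i) c ≠ dist c (y j) := by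
      rw [dist_comm c]
      exact ne_of_gt hj1
    rw [IsUltrametricDist.dist_eq_max_of_dist_ne_dist _ _ _ h2, dist_comm c]
    exact max_eq_left hj1.le
  have A2 : ∀ i, IsGreatest (L '' Set.Ici i) (dist (y i) c) := by
    intro i
    constructor
    · obtain ⟨j, _, hj, hj2⟩ := hev i 0
      obtain ⟨m, hm, hm'⟩ := (A1 i j hj).1
      exact ⟨m, hm.1, by rw [hm', hj2]⟩
    · rintro _ ⟨m, hm, rfl⟩
      obtain ⟨j, hj1, hj, hj2⟩ := hev i m
      rw [← hj2]
      exact (A1 i j hj).2 ⟨m, ⟨hm, hj1⟩, rfl⟩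
  have hS : ∀ i, ∃ s, i ≤ s ∧ s ∈ Sfx L ∧ L s = dist (y i) c := by
    intro i
    obtain ⟨m, hm, hm'⟩ := (A2 i).1
    refine ⟨m, hm, ?_, hm'⟩
    intro k hk
    rw [hm']
    exact (A2 i).2 ⟨k, le_trans hm hk, rfl⟩
  have hSex : ∀ i, ∃ s, i ≤ s ∧ s ∈ Sfx L := fun i => by
    obtain ⟨s, h1, h2, _⟩ := hS i
    exact ⟨s, h1, h2⟩
  let t : ℕ → ℕ := fun i => Nat.find (hSex i)
  have ht1 : ∀ i, i ≤ t i := fun i => (Nat.find_spec (hSex i)).1
  have ht2 : ∀ i, t i ∈ Sfx L := fun i => (Nat.find_spec (hSex i)).2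
  have ht3 : ∀ i s, i ≤ s → s ∈ Sfx L → t i ≤ s := fun i s h1 h2 => Nat.find_min' _ ⟨h1, h2⟩
  have ht4 : ∀ i, i ∉ Sfx L → t i = t (i + 1) := by
    intro i hi
    have h1 : i ≠ t i := fun h => hi (h ▸ ht2 i)
    have h2 := ht1 i
    exact le_antisymm (ht3 i _ ((Nat.le_succ i).trans (ht1 (i + 1))) (ht2 (i + 1)))
      (ht3 (i + 1) _ (by omega) (ht2 i))
  have ht5 : ∀ i, i ∈ Sfx L → t i = i := fun i hi => le_antisymm (ht3 i i le_rfl hi) (ht1 i)
  let idx : X → ℕ := Function.invFun y
  have hidx : ∀ i, idx (y i) = i := Function.leftInverse_invFun hy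
  let T : SimpleGraph X := SimpleGraph.fromRel (Par y L c)
  let l : X → ℝ := fun u => if u = c then 0 else L (idx u)
  let h : X → ℕ := fun u => if u = c then 0 else t (idx u) - idx u + 1
  have hlc : l c = 0 := if_pos rfl
  have hly : ∀ i, l (y i) = L i := by
    intro i
    show (if y i = c then 0 else L (idx (y i))) = _
    rw [if_neg (hyc i), hidx]
  have hhc : h c = 0 := if_pos rfl
  have hhy : ∀ i, h (y i) = t i - i + 1 := by
    intro i
    show (if y i = c then 0 else t (idx (y i)) - idx (y i) + 1) = _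
    rw [if_neg (hyc i), hidx]
  have hTadj : ∀ u v, T.Adj u v ↔ u ≠ v ∧ (Par y L c u v ∨ Par y L c v u) :=
    fun u v => SimpleGraph.fromRel_adj _ _ _
  have hParh : ∀ u v, Par y L c u v → h v < h u := by
    rintro u v (⟨i, hi, rfl, rfl⟩ | ⟨i, hi, rfl, rfl⟩)
    · rw [hhy, hhy, ht4 i hi]
      have := ht1 (i + 1)
      omega
    · rw [hhc, hhy]; omega
  have hParf : ∀ u v w, Par y L c u v → Par y L c u w → v = w := by
    rintro u v w (⟨i, hi, rfl, rfl⟩ | ⟨i, hi, rfl, rfl⟩) (⟨j, hj, h1, rfl⟩ | ⟨j, hj, h1, rfl⟩)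
    · rw [hy h1]
    · rw [hy h1] at hi; exact absurd hj hi
    · rw [hy h1] at hi; exact absurd hi hj
    · rfl
  have hac : T.IsAcyclic := by
    apply acyclic_of_height h
    intro v a b hva hvb ha hb
    have key : ∀ a, T.Adj v a → h a ≤ h v → Par y L c v a := by
      intro a ha1 ha2
      rw [hTadj] at ha1
      rcases ha1.2 with h1 | h1
      · exact h1
      · have := hParh _ _ h1
        omega
    exact hParf v a b (key a hva ha) (key b hvb hb)
  have hParadj : ∀ u v, Par y L c u v → T.Adj u v := by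
    intro u v huv
    rw [hTadj]
    refine ⟨?_, Or.inl huv⟩
    intro h1
    have := hParh _ _ huv
    rw [h1] at this
    omega
  have hadjS : ∀ i, i ∈ Sfx L → T.Adj (y i) c := fun i hi => hParadj _ _ (Or.inr ⟨i, hi, rfl, rfl⟩)
  have hadjN : ∀ i, i ∉ Sfx L → T.Adj (y i) (y (i + 1)) :=
    fun i hi => hParadj _ _ (Or.inl ⟨i, hi, rfl, rfl⟩)
  -- walks
  have W1 : ∀ n i, t i - i = n → ∃ p : T.Walk (y i) c, ∀ w ∈ p.support, l w ≤ dist (y i) c := by
    intro n
    induction n with
    | zero =>
      intro i hi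
      have h1 : t i = i := le_antisymm (Nat.sub_eq_zero_iff_le.1 hi) (ht1 i)
      have h2 : i ∈ Sfx L := by
        have := ht2 i
        rwa [h1] at this
      refine ⟨SimpleGraph.Walk.cons (hadjS i h2) SimpleGraph.Walk.nil, ?_⟩
      intro w hw
      simp only [SimpleGraph.Walk.support_cons, SimpleGraph.Walk.support_nil, List.mem_cons,
        List.not_mem_nil, or_false] at hw
      rcases hw with rfl | rfl
      · rw [hly]
        exact (A2 i).2 ⟨i, Set.mem_Ici.2 le_rfl, rfl⟩
      · rw [hlc]; exact dist_nonneg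
    | succ n ih =>
      intro i hi
      have h1 : i ∉ Sfx L := by
        intro h1
        rw [ht5 i h1] at hi
        omega
      have h2 : t (i + 1) - (i + 1) = n := by
        rw [← ht4 i h1]; omega
      obtain ⟨p, hp⟩ := ih (i + 1) h2
      refine ⟨SimpleGraph.Walk.cons (hadjN i h1) p, ?_⟩
      intro w hw
      rw [SimpleGraph.Walk.support_cons, List.mem_cons] at hw
      rcases hw with rfl | hw
      · rw [hly]
        exact (A2 i).2 ⟨i, Set.mem_Ici.2 le_rfl, rfl⟩
      · refine (hp w hw).trans ?_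
        obtain ⟨m, hm, hm'⟩ := (A2 (i + 1)).1
        rw [← hm']
        exact (A2 i).2 ⟨m, le_trans (Nat.le_succ i) hm, rfl⟩
  have W2 : ∀ n i, (∀ s, i ≤ s → s < i + n → s ∉ Sfx L) →
      ∃ p : T.Walk (y i) (y (i + n)), ∀ w ∈ p.support, ∃ m, i ≤ m ∧ m ≤ i + n ∧ w = y m := by
    intro n
    induction n with
    | zero =>
      intro i _
      refine ⟨SimpleGraph.Walk.nil, ?_⟩
      intro w hw
      rw [SimpleGraph.Walk.support_nil, List.mem_singleton] at hw
      exact ⟨i, le_rfl, le_rfl, hw⟩
    | succ n ih =>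
      intro i hi
      obtain ⟨p, hp⟩ := ih i (fun s h1 h2 => hi s h1 (by omega))
      refine ⟨p.concat (hadjN (i + n) (hi _ (by omega) (by omega))), ?_⟩
      intro w hw
      rw [SimpleGraph.Walk.support_concat, List.mem_append,
        List.mem_singleton] at hw
      rcases hw with hw | hw
      · obtain ⟨m, h1, h2, h3⟩ := hp w hw
        exact ⟨m, h1, by omega, h3⟩
      · exact ⟨_, by omega, by omega, hw⟩
  have hWij : ∀ i j, i < j → ∃ p : T.Walk (y i) (y j), ∀ w ∈ p.support,
      l w ≤ dist (y i) (y j) := by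
    intro i j hij
    by_cases hs : ∃ s, i ≤ s ∧ s < j ∧ s ∈ Sfx L
    · obtain ⟨s, hs1, hs2, hs3⟩ := hs
      obtain ⟨p, hp⟩ := W1 _ i rfl
      obtain ⟨q, hq⟩ := W1 _ j rfl
      refine ⟨p.append q.reverse, ?_⟩
      have h1 : dist (y i) c ≤ dist (y i) (y j) := by
        obtain ⟨m, hm, hm'⟩ := (A2 i).1
        rw [← hm']
        rcases le_total m j with h2 | h2
        · exact (A1 i j hij).2 ⟨m, ⟨hm, h2⟩, rfl⟩
        · exact (hs3 m (by omega)).trans ((A1 i j hij).2 ⟨s, ⟨hs1, hs2.le⟩, rfl⟩)
      have h2 : dist (y j) c ≤ dist (y i) c := by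
        obtain ⟨m, hm, hm'⟩ := (A2 j).1
        rw [← hm']
        exact (A2 i).2 ⟨m, le_trans hij.le hm, rfl⟩
      intro w hw
      rw [SimpleGraph.Walk.mem_support_append_iff, SimpleGraph.Walk.support_reverse,
        List.mem_reverse] at hw
      rcases hw with hw | hw
      · exact (hp w hw).trans h1
      · exact (hq w hw).trans (h2.trans h1)
    · push Not at hs
      obtain ⟨p, hp⟩ := W2 (j - i) i (fun s h1 h2 => hs s h1 (by omega))
      have hji : i + (j - i) = j := by omega
      refine ⟨p.copy rfl (by rw [hji]), ?_⟩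
      intro w hw
      rw [SimpleGraph.Walk.support_copy] at hw
      obtain ⟨m, h1, h2, rfl⟩ := hp w hw
      rw [hly]
      exact (A1 i j hij).2 ⟨m, ⟨h1, by omega⟩, rfl⟩
  have hconn : T.Connected := by
    have h1 : ∀ u, T.Reachable u c := by
      intro u
      rcases hcov u with rfl | ⟨i, rfl⟩
      · exact SimpleGraph.Reachable.refl _
      · obtain ⟨p, _⟩ := W1 _ i rfl
        exact ⟨p⟩
    have : Nonempty X := ⟨c⟩
    exact ⟨fun u v => (h1 u).trans (h1 v).symm⟩
  refine ⟨T, l, ⟨hconn, hac⟩, ?_, ?_, ?_⟩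
  · -- starlike
    refine ⟨c, ?_, ?_⟩
    · have h1 : (Sfx L).Infinite := by
        rw [Set.infinite_iff_exists_gt]
        intro a
        obtain ⟨s, h1, h2⟩ := hSex (a + 1)
        exact ⟨s, h2, by omega⟩
      have h2 : (y '' Sfx L).Infinite := h1.image hy.injOn
      have h3 : y '' Sfx L ⊆ T.neighborSet c := by
        rintro _ ⟨i, hi, rfl⟩
        exact (hadjS i hi).symm
      have h4 := (h2.mono h3).encard_eq
      show 2 < (T.neighborSet c).encard
      rw [h4]
      exact ENat.natCast_lt_top 2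
    · intro v hv
      by_contra hvc
      rcases hcov v with h1 | ⟨i, rfl⟩
      · exact hvc h1
      have h2 : T.neighborSet (y i) ⊆
          {if i ∈ Sfx L then c else y (i + 1), y (i - 1)} := by
        intro w hw
        have hw' : T.Adj (y i) w := hw
        rw [hTadj] at hw'
        rcases hw'.2 with (⟨j, hj, h3, rfl⟩ | ⟨j, hj, h3, rfl⟩) |
          (⟨j, hj, rfl, h3⟩ | ⟨j, hj, rfl, h3⟩)
        · left
          rw [← hy h3] at hj ⊢
          rw [if_neg hj]
        · left
          rw [← hy h3] at hj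
          rw [if_pos hj]
        · right
          have := hy h3
          rw [this]
          rfl
        · exact absurd h3 (hyc i)
      have h3 := (Set.encard_le_encard h2).trans (Set.encard_insert_le _ _)
      rw [Set.encard_singleton] at h3
      have h4 : (1 : ℕ∞) + 1 = 2 := by norm_num
      rw [h4] at h3
      exact absurd hv (not_lt.2 h3)
  · -- rayless
    rintro ⟨r, hr, hradj⟩
    have h1 : ∃ n0, ∀ n, n0 ≤ n → r n ≠ c := by
      by_cases h2 : ∃ k, r k = c
      · obtain ⟨k, hk⟩ := h2
        refine ⟨k + 1, ?_⟩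
        intro n hn h3
        have := hr (h3.trans hk.symm)
        omega
      · push Not at h2
        exact ⟨0, fun n _ => h2 n⟩
    obtain ⟨n0, hn0⟩ := h1
    have h2 : ∀ n, ∃ i, r (n0 + n) = y i := by
      intro n
      rcases hcov (r (n0 + n)) with h3 | h3
      · exact absurd h3 (hn0 _ (by omega))
      · exact h3
    choose a ha using h2
    have hstep : ∀ n, (a (n + 1) = a n + 1 ∧ a n ∉ Sfx L) ∨
        (a n = a (n + 1) + 1 ∧ a (n + 1) ∉ Sfx L) := by
      intro n
      have h3 := hradj (n0 + n)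
      rw [show n0 + n + 1 = n0 + (n + 1) by ring, ha, ha, hTadj] at h3
      rcases h3.2 with (⟨j, hj, h4, h5⟩ | ⟨j, hj, h4, h5⟩) | (⟨j, hj, h4, h5⟩ | ⟨j, hj, h4, h5⟩)
      · left
        rw [hy h4, hy h5]; exact ⟨rfl, hj⟩
      · exact absurd h5 (hyc _)
      · right
        rw [hy h4, hy h5]; exact ⟨rfl, hj⟩
      · exact absurd h5 (hyc _)
    have hne : ∀ n, a (n + 2) ≠ a n := by
      intro n h3
      have h4 : r (n0 + (n + 2)) = r (n0 + n) := by rw [ha, ha, h3]
      have := hr h4
      omega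
    rcases hstep 0 with h3 | h3
    · -- always up
      have h4 : ∀ n, a (n + 1) = a n + 1 ∧ a n ∉ Sfx L := by
        intro n
        induction n with
        | zero => exact h3
        | succ n ih =>
          rcases hstep (n + 1) with h5 | h5
          · exact h5
          · exfalso
            apply hne n
            show a (n + 1 + 1) = a n
            omega
      have h5 : ∀ n, a n = a 0 + n := by
        intro n
        induction n with
        | zero => rfl
        | succ n ih => rw [(h4 n).1, ih]; ring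
      obtain ⟨s, hs1, hs2⟩ := hSex (a 0)
      apply (h4 (s - a 0)).2
      rw [h5, Nat.add_sub_cancel' hs1]
      exact hs2
    · have h4 : ∀ n, a n = a (n + 1) + 1 := by
        intro n
        induction n with
        | zero => exact h3.1
        | succ n ih =>
          rcases hstep (n + 1) with h5 | h5
          · exfalso
            apply hne n
            show a (n + 1 + 1) = a n
            omega
          · exact h5.1
      have h5 : ∀ n, a 0 = a n + n := by
        intro n
        induction n with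
        | zero => rfl
        | succ n ih => rw [ih, h4 n]; ring
      have := h5 (a 0 + 1)
      omega
  · -- the distance
    apply gen_of hac
    · intro v
      rcases hcov v with rfl | ⟨i, rfl⟩
      · rw [hlc]
      · rw [hly]; exact hL i
    · have key : ∀ a b, Par y L c a b → dist a b ≤ max (l a) (l b) := by
        rintro a b (⟨i, hi, rfl, rfl⟩ | ⟨i, hi, rfl, rfl⟩)
        · obtain ⟨m, hm, hm'⟩ := (A1 i (i + 1) (Nat.lt_succ_self i)).1
          rw [← hm', hly, hly]
          rcases Nat.lt_or_ge m (i + 1) with h1 | h1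
          · have : m = i := le_antisymm (Nat.lt_succ_iff.1 h1) hm.1
            rw [this]; exact le_max_left _ _
          · have : m = i + 1 := le_antisymm hm.2 h1
            rw [this]; exact le_max_right _ _
        · obtain ⟨m, hm, hm'⟩ := (A2 i).1
          rw [← hm', hly]
          exact (hi m hm).trans (le_max_left _ _)
      intro a b hab
      rw [hTadj] at hab
      rcases hab.2 with h1 | h1
      · exact key a b h1
      · rw [dist_comm, max_comm]; exact key b a h1
    · intro u v huv
      rcases hcov u with rfl | ⟨i, rfl⟩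
      · rcases hcov v with rfl | ⟨j, rfl⟩
        · exact absurd rfl huv
        · obtain ⟨p, hp⟩ := W1 _ j rfl
          refine ⟨p.reverse, ?_⟩
          intro w hw
          rw [SimpleGraph.Walk.support_reverse, List.mem_reverse] at hw
          rw [dist_comm]; exact hp w hw
      · rcases hcov v with rfl | ⟨j, rfl⟩
        · exact W1 _ i rfl
        · rcases lt_trichotomy i j with h1 | h1 | h1
          · exact hWij i j h1
          · rw [h1] at huv; exact absurd rfl huv
          · obtain ⟨p, hp⟩ := hWij j i h1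
            refine ⟨p.reverse, ?_⟩
            intro w hw
            rw [SimpleGraph.Walk.support_reverse, List.mem_reverse] at hw
            rw [dist_comm]; exact hp w hw

end tree

theorem partA {X : Type u} [MetricSpace X] [IsUltrametricDist X] (hX : CompletionOfRay X) :
    CompactStarlike X := by
  obtain ⟨X0, hne, htb, ⟨R, l, ⟨x, hxb, hxadj⟩, hl0, hgen⟩, hcomp, hdense⟩ := hX
  let y : ℕ → X := fun n => (x n : X)
  let L : ℕ → ℝ := fun n => l (x n)
  have hy : Function.Injective y := fun i j h => hxb.1 (Subtype.ext h)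
  have A1 : ∀ i j, i < j → IsGreatest (L '' Set.Icc i j) (dist (y i) (y j)) := by
    intro i j hij
    obtain ⟨n, rfl⟩ : ∃ n, j = i + n := ⟨j - i, by omega⟩
    obtain ⟨p, hp, hp'⟩ := ray_walk hxb.1 hxadj i n
    have h1 := hgen _ _ p hp (fun h => by have := hxb.1 h; omega)
    have h2 : l '' {w | w ∈ p.support} = L '' Set.Icc i (i + n) := by
      ext z
      constructor
      · rintro ⟨w, hw, rfl⟩
        obtain ⟨m, h3, h4, rfl⟩ := (hp' w).1 hw
        exact ⟨m, ⟨h3, h4⟩, rfl⟩
      · rintro ⟨m, hm, rfl⟩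
        exact ⟨x m, (hp' _).2 ⟨m, hm.1, hm.2, rfl⟩, rfl⟩
    rw [h2] at h1
    exact h1
  have A0 : ∀ ε : ℝ, 0 < ε → {n | ε ≤ L n}.Finite := by
    intro ε hε
    by_contra hcon
    obtain ⟨i, hi, j, hj, hij, h1⟩ := exists_close htb (A := {n | ε ≤ L n}) hcon y
      (fun n _ => (x n).2) hε
    rcases lt_or_gt_of_ne hij with h2 | h2
    · have h3 := (A1 i j h2).2 ⟨i, ⟨le_rfl, h2.le⟩, rfl⟩
      have h4 : ε ≤ L i := hi
      linarith
    · have h3 := (A1 j i h2).2 ⟨j, ⟨le_rfl, h2.le⟩, rfl⟩
      have h4 : ε ≤ L j := hj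
      rw [dist_comm] at h1
      linarith
  have hcau : CauchySeq y := by
    rw [Metric.cauchySeq_iff]
    intro ε hε
    obtain ⟨N, hN⟩ := (A0 ε hε).bddAbove
    have key : ∀ m n, N + 1 ≤ m → m < n → dist (y m) (y n) < ε := by
      intro m n hm hmn
      obtain ⟨k, hk, hk'⟩ := (A1 m n hmn).1
      rw [← hk']
      by_contra hcon
      push Not at hcon
      have := hN hcon
      have := hk.1
      omega
    refine ⟨N + 1, ?_⟩
    intro m hm n hn
    rcases lt_trichotomy m n with h | h | h
    · exact key m n hm h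
    · rw [h, dist_self]; exact hε
    · rw [dist_comm]; exact key n m hn h
  obtain ⟨c, hc⟩ := cauchySeq_tendsto_of_complete hcau
  have hcompact : IsCompact (insert c (Set.range y)) := hc.isCompact_insert_range
  have hrange : Set.range y = X0 := by
    ext z
    constructor
    · rintro ⟨n, rfl⟩
      exact (x n).2
    · intro hz
      obtain ⟨n, hn⟩ := hxb.2 ⟨z, hz⟩
      exact ⟨n, congrArg Subtype.val hn⟩
  have huniv : insert c (Set.range y) = Set.univ := by
    rw [Set.eq_univ_iff_forall]
    intro z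
    have h1 : closure X0 ⊆ insert c (Set.range y) := by
      apply hcompact.isClosed.closure_subset_iff.2
      rw [← hrange]
      exact Set.subset_insert _ _
    exact h1 (hdense z)
  have hcX0 : c ∉ X0 := by
    intro h1
    apply hne
    rw [← huniv, hrange]
    exact (Set.insert_eq_of_mem h1).symm
  refine ⟨⟨by rw [← huniv]; exact hcompact⟩, ?_⟩
  refine partA_aux (y := y) (L := L) (c := c) hy ?_ (fun i => hl0 _) ?_ A1 hc
  · intro i h1
    apply hcX0
    rw [← h1]
    exact (x i).2
  · intro u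
    have : u ∈ insert c (Set.range y) := by rw [huniv]; trivial
    rcases this with h1 | ⟨i, hi⟩
    · exact Or.inl h1
    · exact Or.inr ⟨i, hi.symm⟩

end Pool.Agent.R790.Ult
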