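import Pool.Agent.R790.Ult.Basic

/-! Enumerating orders of type omega. -/

set_option autoImplicit false

namespace Pool.Agent.R790.Ult

universe u

/-- An infinite set with a total order all of whose initial segments are finite is enumerated
increasingly by the natural numbers. -/
theorem exists_enum {α : Type u} [Infinite α] (r : α → α → Prop) (hirr : ∀ a, ¬ r a a)
    (htrans : ∀ a b c, r a b → r b c → r a c) (htot : ∀ a b, a ≠ b → r a b ∨ r b a)
    (hfin : ∀ a, {b | r b a}.Finite) :
    ∃ x : ℕ → α, Function.Bijective x ∧ ∀ i j, i < j ↔ r (x i) (x j) := by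
  classical
  let rk : α → ℕ := fun a => {b | r b a}.ncard
  have hlt : ∀ a b, r a b → rk a < rk b := by
    intro a b hab
    apply Set.ncard_lt_ncard _ (hfin b)
    refine ⟨fun c hc => htrans c a b hc hab, ?_⟩
    intro h
    exact hirr a (h hab)
  have hinj : Function.Injective rk := by
    intro a b hab
    by_contra hne
    rcases htot a b hne with h | h
    · exact absurd hab (hlt a b h).ne
    · exact absurd hab (hlt b a h).ne'
  have hdown : ∀ a n, n < rk a → ∃ b, rk b = n := by
    intro a n hn
    have h1 : rk '' {b | r b a} ⊆ Set.Iio (rk a) := by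
      rintro _ ⟨b, hb, rfl⟩
      exact hlt b a hb
    have h2 : (rk '' {b | r b a}).ncard = rk a := Set.ncard_image_of_injective _ hinj
    have h3 : rk '' {b | r b a} = Set.Iio (rk a) := by
      apply Set.eq_of_subset_of_ncard_le h1 _ (Set.finite_Iio _)
      rw [h2, Set.ncard_eq_toFinset_card']
      simp
    have h4 : n ∈ rk '' {b | r b a} := by rw [h3]; exact hn
    obtain ⟨b, _, hb⟩ := h4
    exact ⟨b, hb⟩
  have hsurj : Function.Surjective rk := by
    intro n
    have h1 : ∃ a, n < rk a := by
      by_contra hcon
      push Not at hcon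
      have h2 : (Set.range rk).Finite := (Set.finite_Iic n).subset (by
        rintro _ ⟨a, rfl⟩
        exact hcon a)
      exact Set.infinite_range_of_injective hinj h2
    obtain ⟨a, ha⟩ := h1
    exact hdown a n ha
  let e := Equiv.ofBijective rk ⟨hinj, hsurj⟩
  have he : ∀ n, rk (e.symm n) = n := fun n => e.apply_symm_apply n
  refine ⟨e.symm, e.symm.bijective, ?_⟩
  intro i j
  constructor
  · intro hij
    have hne : e.symm i ≠ e.symm j := fun h => hij.ne (e.symm.injective h)
    rcases htot _ _ hne with h | h
    · exact h
    · have := hlt _ _ h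
      rw [he, he] at this
      omega
  · intro h
    have := hlt _ _ h
    rwa [he, he] at this

end Pool.Agent.R790.Ult
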