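import Pool.Agent.R790.Ult.Tree
import Pool.Agent.R790.Ult.Rank

/-! From starlike trees to rays. -/

set_option autoImplicit false

namespace Pool.Agent.R790.Ult

open Filter Topology

universe u

/-- a metric space is generated by a labeled ray if its points can be enumerated suitably -/
theorem ray_of_enum {V : Type u} [MetricSpace V] [IsUltrametricDist V] (x : ℕ → V)
    (hx : Function.Bijective x) (l : V → ℝ) (hl : ∀ v, 0 ≤ l v)
    (hd : ∀ i j, i < j → IsGreatest ((fun n => l (x n)) '' Set.Icc i j) (dist (x i) (x j))) :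
    ∃ (R : SimpleGraph V) (l : V → ℝ), IsRay R ∧ Generates R l := by
  classical
  let e := Equiv.ofBijective x hx
  have he : ∀ n, e.symm (x n) = n := fun n => e.symm_apply_apply n
  let R : SimpleGraph V :=
    { Adj := fun u v => e.symm v = e.symm u + 1 ∨ e.symm u = e.symm v + 1
      symm := ⟨fun u v h => h.symm⟩
      loopless := ⟨fun u h => by omega⟩ }
  have hR : ∀ i j, R.Adj (x i) (x j) ↔ (j = i + 1 ∨ i = j + 1) := by
    intro i j
    show (e.symm (x j) = e.symm (x i) + 1 ∨ e.symm (x i) = e.symm (x j) + 1) ↔ _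
    rw [he, he]
  refine ⟨R, l, ⟨x, hx, hR⟩, ?_⟩
  have hwalk : ∀ n i, ∃ p : R.Walk (x i) (x (i + n)), ∀ w ∈ p.support,
      ∃ m, i ≤ m ∧ m ≤ i + n ∧ w = x m := by
    intro n
    induction n with
    | zero =>
      intro i
      refine ⟨SimpleGraph.Walk.nil, ?_⟩
      intro w hw
      rw [SimpleGraph.Walk.support_nil, List.mem_singleton] at hw
      exact ⟨i, le_rfl, le_rfl, hw⟩
    | succ n ih =>
      intro i
      obtain ⟨p, hp⟩ := ih i
      have h1 : R.Adj (x (i + n)) (x (i + (n + 1))) := (hR _ _).2 (Or.inl (by omega))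
      refine ⟨p.concat h1, ?_⟩
      intro w hw
      rw [SimpleGraph.Walk.support_concat, List.mem_append, List.mem_singleton] at hw
      rcases hw with hw | hw
      · obtain ⟨m, h1, h2, h3⟩ := hp w hw
        exact ⟨m, h1, by omega, h3⟩
      · exact ⟨_, by omega, by omega, hw⟩
  have hW : ∀ i j, i < j → ∃ p : R.Walk (x i) (x j), ∀ w ∈ p.support,
      l w ≤ dist (x i) (x j) := by
    intro i j hij
    obtain ⟨n, rfl⟩ : ∃ n, j = i + n := ⟨j - i, by omega⟩
    obtain ⟨p, hp⟩ := hwalk n i
    refine ⟨p, ?_⟩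
    intro w hw
    obtain ⟨m, h1, h2, rfl⟩ := hp w hw
    exact (hd i (i + n) hij).2 ⟨m, ⟨h1, h2⟩, rfl⟩
  apply gen_of
  · apply acyclic_of_height (fun v => e.symm v)
    intro v a b hva hvb ha hb
    apply e.symm.injective
    rcases hva with h1 | h1 <;> rcases hvb with h2 | h2 <;> omega
  · exact hl
  · intro a b hab
    obtain ⟨i, rfl⟩ := hx.2 a
    obtain ⟨j, rfl⟩ := hx.2 b
    rw [hR] at hab
    have key : ∀ i, dist (x i) (x (i + 1)) ≤ max (l (x i)) (l (x (i + 1))) := by
      intro i
      obtain ⟨m, hm, hm'⟩ := (hd i (i + 1) (Nat.lt_succ_self i)).1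
      rw [← hm']
      rcases Nat.lt_or_ge m (i + 1) with h1 | h1
      · have : m = i := le_antisymm (Nat.lt_succ_iff.1 h1) hm.1
        rw [this]; exact le_max_left _ _
      · have : m = i + 1 := le_antisymm hm.2 h1
        rw [this]; exact le_max_right _ _
    rcases hab with rfl | rfl
    · exact key i
    · rw [dist_comm, max_comm]; exact key j
  · intro u v huv
    obtain ⟨i, rfl⟩ := hx.2 u
    obtain ⟨j, rfl⟩ := hx.2 v
    rcases lt_trichotomy i j with h1 | h1 | h1
    · exact hW i j h1
    · rw [h1] at huv; exact absurd rfl huv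
    · obtain ⟨p, hp⟩ := hW j i h1
      refine ⟨p.reverse, ?_⟩
      intro w hw
      rw [SimpleGraph.Walk.support_reverse, List.mem_reverse] at hw
      rw [dist_comm]; exact hp w hw

theorem partB {X : Type u} [MetricSpace X] [IsUltrametricDist X] [Infinite X]
    (hX : CompactStarlike X) : CompletionOfRay X := by
  classical
  obtain ⟨hcomp, T, l, hT, ⟨c, hc1, hc2⟩, hray, hl0, hgen⟩ := hX
  have htb : TotallyBounded (Set.univ : Set X) := isCompact_univ.totallyBounded
  have hdeg : ∀ v, v ≠ c → (T.neighborSet v).encard ≤ 2 := by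
    intro v hv
    by_contra h
    push Not at h
    exact hv (hc2 v h)
  obtain ⟨h, par, h0, h1, h1', h2⟩ := exists_coord hT hdeg
  let B : X → X := br h par
  have hBdef : ∀ v, br h par v = B v := fun v => rfl
  -- branches are finite
  have hcoord : ∀ u v, u ≠ c → v ≠ c → h u = h v → B u = B v → u = v :=
    fun u v hu hv h3 h4 => coord_inj h0 h1 h2 (h v) u v hu hv h3 rfl h4
  have hbrfin : ∀ b, {v | v ≠ c ∧ B v = b}.Finite := by
    intro b
    by_contra hinf
    apply hray
    have h3 : ∀ n : ℕ, ∃ w, w ≠ c ∧ B w = b ∧ h w = n + 1 := by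
      intro n
      have h4 : ∃ v, (v ≠ c ∧ B v = b) ∧ n + 1 ≤ h v := by
        by_contra hcon
        push Not at hcon
        apply hinf
        apply Set.Finite.of_finite_image (f := h)
        · apply (Set.finite_Iio (n + 1)).subset
          rintro _ ⟨v, hv, rfl⟩
          exact hcon v hv
        · intro u hu v hv huv
          exact hcoord u v hu.1 hv.1 huv (hu.2.trans hv.2.symm)
      obtain ⟨v, ⟨hv1, hv2⟩, hv3⟩ := h4
      refine ⟨par^[h v - (n + 1)] v, iter_ne h0 h1 v _ (by omega), ?_, ?_⟩
      · rw [← hv2]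
        exact br_iter h0 h1 v _ (by omega)
      · rw [h_iter h0 h1 v _ (by omega)]; omega
    choose w hw1 hw2 hw3 using h3
    refine ⟨w, ?_, ?_⟩
    · intro i j hij
      have h4 := hw3 i
      rw [hij, hw3 j] at h4
      omega
    · intro n
      have h4 := (h1 (w (n + 1)) (hw1 (n + 1)))
      have h5 : par (w (n + 1)) = w n := by
        have h6 : par (w (n + 1)) ≠ c := by
          intro h7
          rw [← h0] at h7
          have := hw3 (n + 1)
          omega
        apply hcoord _ _ h6 (hw1 n)
        · have := hw3 n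
          have := hw3 (n + 1)
          omega
        · rw [hw2 n, ← hw2 (n + 1)]
          exact br_iter h0 h1 (w (n + 1)) 1 (by have := hw3 (n + 1); omega)
      rw [← h5]
      exact h4.1.symm
  -- distances
  have D1 : ∀ v, v ≠ c → IsGreatest (l '' {w | w = c ∨ (w ≠ c ∧ B w = B v ∧ h w ≤ h v)})
      (dist v c) := by
    intro v hv
    obtain ⟨p, hp, hp'⟩ := path_centre h0 h1 h2 hv
    have h3 := hgen v c p hp hv
    have h4 : {w | w ∈ p.support} = {w | w = c ∨ (w ≠ c ∧ B w = B v ∧ h w ≤ h v)} :=
      Set.ext hp'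
    rw [h4] at h3
    exact h3
  have D2 : ∀ u v, u ≠ c → v ≠ c → B v = B u → h v < h u →
      IsGreatest (l '' {w | w ≠ c ∧ B w = B u ∧ h v ≤ h w ∧ h w ≤ h u}) (dist u v) := by
    intro u v hu hv h3 h4
    obtain ⟨p, hp, hp'⟩ := path_branch h0 h1 h2 hu hv h3 h4
    have h5 := hgen u v p hp (by rintro rfl; omega)
    have h6 : {w | w ∈ p.support} = {w | w ≠ c ∧ B w = B u ∧ h v ≤ h w ∧ h w ≤ h u} :=
      Set.ext hp'
    rw [h6] at h5
    exact h5
  have D3 : ∀ u v, u ≠ c → v ≠ c → B u ≠ B v → ∀ w,
      (w = c ∨ (w ≠ c ∧ B w = B u ∧ h w ≤ h u)) → l w ≤ dist u v := by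
    intro u v hu hv h3 w hw
    obtain ⟨p, hp, hp'⟩ := path_diff h0 h1 h2 hu hv h3
    have h4 := hgen u v p hp (fun h5 => h3 (by rw [h5]))
    apply h4.2
    refine ⟨w, ?_, rfl⟩
    rw [Set.mem_ofPred_eq, hp']
    tauto
  -- infinitely many branches
  have hlc : l c = 0 := by
    by_contra hne
    have hpos : 0 < l c := lt_of_le_of_ne (hl0 c) (Ne.symm hne)
    have hinf : (B '' {v | v ≠ c}).Infinite := by
      intro hfin
      have h3 : {v : X | v ≠ c}.Finite := by
        apply (hfin.biUnion (fun b _ => hbrfin b)).subset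
        intro v hv
        simp only [Set.mem_iUnion]
        exact ⟨B v, ⟨v, hv, rfl⟩, hv, rfl⟩
      have h4 : (Set.univ : Set X).Finite := by
        apply (h3.insert c).subset
        intro v _
        by_cases hv : v = c
        · exact Or.inl hv
        · exact Or.inr hv
      exact Set.infinite_univ h4
    have hBB : ∀ b ∈ B '' {v | v ≠ c}, b ≠ c ∧ B b = b := by
      rintro _ ⟨v, hv, rfl⟩
      have h3 : h (B v) = 1 := h_br h0 h1 hv
      refine ⟨?_, ?_⟩
      · intro h4
        rw [← h0] at h4
        omega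
      · show par^[h (B v) - 1] (B v) = B v
        rw [h3]
        rfl
    obtain ⟨b, hb, b', hb', hbb, h3⟩ := exists_close htb hinf id (fun _ _ => trivial) hpos
    have h4 := D3 b b' (hBB b hb).1 (hBB b' hb').1
      (by rw [(hBB b hb).2, (hBB b' hb').2]; exact hbb) c (Or.inl rfl)
    simp only [id] at h3
    linarith
  have hPpos : ∀ v, v ≠ c → 0 < dist v c := fun v hv => dist_pos.2 hv
  have F7 : ∀ v w, v ≠ c → w ≠ c → B w = B v → h w ≤ h v → l w ≤ dist v c := by
    intro v w hv hw h3 h4
    exact (D1 v hv).2 ⟨w, Or.inr ⟨hw, h3, h4⟩, rfl⟩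
  have F7' : ∀ v w, v ≠ c → w ≠ c → B w = B v → h w ≤ h v → dist w c ≤ dist v c := by
    intro v w hv hw h3 h4
    obtain ⟨z, hz, hz'⟩ := (D1 w hw).1
    rw [← hz']
    rcases hz with rfl | ⟨hz1, hz2, hz3⟩
    · rw [hlc]; exact dist_nonneg
    · exact F7 v z hv hz1 (hz2.trans h3) (hz3.trans h4)
  have F5 : ∀ v, v ≠ c → ∃ w, w ≠ c ∧ B w = B v ∧ h w ≤ h v ∧ l w = dist v c ∧
      dist w c = dist v c := by
    intro v hv
    obtain ⟨w, hw, hw'⟩ := (D1 v hv).1
    rcases hw with rfl | ⟨hw1, hw2, hw3⟩
    · have := hPpos v hv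
      rw [hlc] at hw'
      linarith
    · refine ⟨w, hw1, hw2, hw3, hw', ?_⟩
      apply le_antisymm (F7' v w hv hw1 hw2 hw3)
      rw [← hw']
      exact F7 w w hw1 hw1 rfl le_rfl
  have F3 : ∀ ε : ℝ, 0 < ε → {v | v ≠ c ∧ ε ≤ dist v c}.Finite := by
    intro ε hε
    by_contra hinf
    have hinf2 : (B '' {v | v ≠ c ∧ ε ≤ dist v c}).Infinite := by
      intro hfin
      apply hinf
      apply (hfin.biUnion (fun b _ => hbrfin b)).subset
      intro v hv
      simp only [Set.mem_iUnion]
      exact ⟨B v, ⟨v, hv, rfl⟩, hv.1, rfl⟩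
    have h3 : ∀ b ∈ B '' {v | v ≠ c ∧ ε ≤ dist v c}, ∃ v, (v ≠ c ∧ ε ≤ dist v c) ∧ B v = b := by
      rintro _ ⟨v, hv, rfl⟩
      exact ⟨v, hv, rfl⟩
    choose! g hg1 hg2 using h3
    obtain ⟨b, hb, b', hb', hbb, h3⟩ := exists_close htb hinf2 g (fun _ _ => trivial) hε
    obtain ⟨w, hw1, hw2, hw3, hw4, _⟩ := F5 (g b) (hg1 b hb).1
    have h4 := D3 (g b) (g b') (hg1 b hb).1 (hg1 b' hb').1
      (by rw [hg2 b hb, hg2 b' hb']; exact hbb) w (Or.inr ⟨hw1, hw2, hw3⟩)
    rw [hw4] at h4
    have h5 := (hg1 b hb).2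
    linarith
  have hX0inf : {v : X | v ≠ c}.Infinite := by
    intro h3
    have h4 : (Set.univ : Set X).Finite := by
      apply (h3.insert c).subset
      intro v _
      by_cases hv : v = c
      · exact Or.inl hv
      · exact Or.inr hv
    exact Set.infinite_univ h4
  have hinfsub : Infinite {v : X | v ≠ c} := hX0inf.to_subtype
  -- the order
  let W : X → X → Prop := WellOrderingRel
  have hWirr : ∀ a, ¬ W a a := fun a => irrefl_of W a
  have hWtr : ∀ a b d, W a b → W b d → W a d := fun a b d h3 h4 => trans_of W h3 h4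
  have hWtot : ∀ a b, a ≠ b → W a b ∨ W b a := by
    intro a b hab
    rcases trichotomous_of W a b with h3 | h3 | h3
    · exact Or.inl h3
    · exact absurd h3 hab
    · exact Or.inr h3
  let r : {v : X | v ≠ c} → {v : X | v ≠ c} → Prop := fun u v =>
    dist v.1 c < dist u.1 c ∨ (dist v.1 c = dist u.1 c ∧
      (W (B u.1) (B v.1) ∨ (B u.1 = B v.1 ∧ h v.1 < h u.1)))
  have hrdef : ∀ u v : {v : X | v ≠ c}, r u v ↔ (dist v.1 c < dist u.1 c ∨
      (dist v.1 c = dist u.1 c ∧ (W (B u.1) (B v.1) ∨ (B u.1 = B v.1 ∧ h v.1 < h u.1)))) :=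
    fun _ _ => Iff.rfl
  have hrirr : ∀ a, ¬ r a a := by
    rintro a (h3 | ⟨_, h3 | ⟨_, h3⟩⟩)
    · exact lt_irrefl _ h3
    · exact hWirr _ h3
    · exact lt_irrefl _ h3
  have hrtr : ∀ a b d, r a b → r b d → r a d := by
    intro a b d hab hbd
    rw [hrdef] at hab hbd ⊢
    rcases hab with h3 | ⟨h3, h4⟩
    · rcases hbd with h5 | ⟨h5, _⟩
      · exact Or.inl (h5.trans h3)
      · left; rw [h5]; exact h3
    · rcases hbd with h5 | ⟨h5, h6⟩
      · left; rw [← h3]; exact h5
      · right
        refine ⟨h5.trans h3, ?_⟩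
        rcases h4 with h4 | ⟨h4, h7⟩
        · rcases h6 with h6 | ⟨h6, _⟩
          · exact Or.inl (hWtr _ _ _ h4 h6)
          · left; rw [← h6]; exact h4
        · rcases h6 with h6 | ⟨h6, h8⟩
          · left; rw [h4]; exact h6
          · right; exact ⟨h4.trans h6, h8.trans h7⟩
  have hrtot : ∀ a b, a ≠ b → r a b ∨ r b a := by
    intro a b hab
    rw [hrdef, hrdef]
    rcases lt_trichotomy (dist a.1 c) (dist b.1 c) with h3 | h3 | h3
    · exact Or.inr (Or.inl h3)
    · by_cases h4 : B a.1 = B b.1
      · rcases lt_trichotomy (h a.1) (h b.1) with h5 | h5 | h5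
        · exact Or.inr (Or.inr ⟨h3, Or.inr ⟨h4.symm, h5⟩⟩)
        · exact absurd (Subtype.ext (hcoord _ _ a.2 b.2 h5 h4)) hab
        · exact Or.inl (Or.inr ⟨h3.symm, Or.inr ⟨h4, h5⟩⟩)
      · rcases hWtot _ _ h4 with h5 | h5
        · exact Or.inl (Or.inr ⟨h3.symm, Or.inl h5⟩)
        · exact Or.inr (Or.inr ⟨h3, Or.inl h5⟩)
    · exact Or.inl (Or.inl h3)
  have hrfin : ∀ a, {b | r b a}.Finite := by
    intro a
    apply Set.Finite.of_finite_image (f := Subtype.val)
    · apply (F3 (dist a.1 c) (hPpos a.1 a.2)).subset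
      rintro _ ⟨b, hb, rfl⟩
      refine ⟨b.2, ?_⟩
      rcases hb with h3 | ⟨h3, _⟩
      · exact h3.le
      · exact h3.le
    · exact Subtype.val_injective.injOn
  obtain ⟨x, hx, hxr⟩ := exists_enum r hrirr hrtr hrtot hrfin
  -- the main computation
  have hle : ∀ i j, i ≤ j → dist (x j).1 c ≤ dist (x i).1 c := by
    intro i j hij
    rcases hij.lt_or_eq with h3 | rfl
    · rcases (hxr i j).1 h3 with h4 | ⟨h4, _⟩
      · exact h4.le
      · exact h4.le
    · exact le_rfl
  have hll : ∀ v, v ≠ c → l v ≤ dist v c := fun v hv => F7 v v hv hv rfl le_rfl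
  have hmain : ∀ i j, i < j → IsGreatest ((fun n => l (x n).1) '' Set.Icc i j)
      (dist (x i) (x j)) := by
    intro i j hij
    have hu := (x i).2
    have hv := (x j).2
    have hPP := hle i j hij.le
    -- general situation: distance equals the distance of the first point to the centre
    have gen : dist (x i).1 (x j).1 = dist (x i).1 c →
        (dist (x j).1 c < dist (x i).1 c ∨ W (B (x i).1) (B (x j).1)) →
        IsGreatest ((fun n => l (x n).1) '' Set.Icc i j) (dist (x i) (x j)) := by
      intro h3 h4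
      show IsGreatest _ (dist (x i).1 (x j).1)
      rw [h3]
      constructor
      · obtain ⟨w, hw1, hw2, hw3, hw4, hw5⟩ := F5 (x i).1 hu
        obtain ⟨k, hk⟩ := hx.2 ⟨w, hw1⟩
        have hk' : (x k).1 = w := congrArg Subtype.val hk
        refine ⟨k, ⟨?_, ?_⟩, ?_⟩
        · by_contra h5
          push Not at h5
          have h6 := (hxr k i).1 h5
          rw [hrdef, hk'] at h6
          rcases h6 with h6 | ⟨_, h6 | ⟨_, h6⟩⟩
          · linarith
          · rw [hw2] at h6
            exact hWirr _ h6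
          · omega
        · apply le_of_lt
          rw [hxr, hrdef, hk', hw5]
          rcases h4 with h4 | h4
          · exact Or.inl h4
          · rcases hPP.lt_or_eq with h6 | h6
            · exact Or.inl h6
            · exact Or.inr ⟨h6, Or.inl (by rw [hw2]; exact h4)⟩
        · show l (x k).1 = _
          rw [hk', hw4]
      · rintro _ ⟨k, hk, rfl⟩
        exact (hll _ (x k).2).trans (hle i k hk.1)
    have h3 := (hxr i j).1 hij
    rw [hrdef] at h3
    rcases h3 with h3 | ⟨h3, h4 | ⟨h4, h5⟩⟩
    · apply gen _ (Or.inl h3)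
      have h4 : dist (x i).1 c ≠ dist c (x j).1 := by
        rw [dist_comm c]; exact ne_of_gt h3
      rw [IsUltrametricDist.dist_eq_max_of_dist_ne_dist _ _ _ h4, dist_comm c]
      exact max_eq_left h3.le
    · apply gen _ (Or.inr h4)
      have h5 : B (x i).1 ≠ B (x j).1 := by
        intro h6
        rw [h6] at h4
        exact hWirr _ h4
      apply le_antisymm
      · have h6 := IsUltrametricDist.dist_triangle_max (x i).1 c (x j).1
        rw [dist_comm c, h3, max_self] at h6
        exact h6
      · obtain ⟨w, hw1, hw2, hw3, hw4, _⟩ := F5 (x i).1 hu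
        rw [← hw4]
        exact D3 _ _ hu hv h5 w (Or.inr ⟨hw1, hw2, hw3⟩)
    · have h6 := D2 (x i).1 (x j).1 hu hv h4.symm h5
      have h7 : l '' {w | w ≠ c ∧ B w = B (x i).1 ∧ h (x j).1 ≤ h w ∧ h w ≤ h (x i).1} =
          (fun n => l (x n).1) '' Set.Icc i j := by
        ext z
        constructor
        · rintro ⟨w, ⟨hw1, hw2, hw3, hw4⟩, rfl⟩
          obtain ⟨k, hk⟩ := hx.2 ⟨w, hw1⟩
          have hk' : (x k).1 = w := congrArg Subtype.val hk
          have h8 : dist w c = dist (x i).1 c := by
            apply le_antisymm (F7' _ w hu hw1 hw2 hw4)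
            rw [← h3]
            exact F7' w _ hw1 hv (h4.symm.trans hw2.symm) hw3
          refine ⟨k, ⟨?_, ?_⟩, ?_⟩
          · by_contra h9
            push Not at h9
            have h10 := (hxr k i).1 h9
            rw [hrdef, hk'] at h10
            rcases h10 with h10 | ⟨_, h10 | ⟨_, h10⟩⟩
            · linarith
            · rw [hw2] at h10
              exact hWirr _ h10
            · omega
          · by_contra h9
            push Not at h9
            have h10 := (hxr j k).1 h9
            rw [hrdef, hk'] at h10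
            rcases h10 with h10 | ⟨_, h10 | ⟨_, h10⟩⟩
            · linarith
            · rw [hw2, h4] at h10
              exact hWirr _ h10
            · omega
          · show l (x k).1 = _
            rw [hk']
        · rintro ⟨k, hk, rfl⟩
          refine ⟨(x k).1, ⟨(x k).2, ?_⟩, rfl⟩
          have h8 : dist (x k).1 c = dist (x i).1 c := by
            apply le_antisymm (hle i k hk.1)
            rw [← h3]
            exact hle k j hk.2
          rcases hk.1.lt_or_eq with h9 | h9
          · have h10 := (hxr i k).1 h9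
            rw [hrdef] at h10
            rcases hk.2.lt_or_eq with h11 | h11
            · have h12 := (hxr k j).1 h11
              rw [hrdef] at h12
              rcases h10 with h10 | ⟨_, h10 | ⟨h10, h13⟩⟩
              · linarith
              · exfalso
                rcases h12 with h12 | ⟨_, h12 | ⟨h12, h14⟩⟩
                · linarith
                · have := hWtr _ _ _ h10 h12
                  rw [h4] at this
                  exact hWirr _ this
                · rw [h12, h4] at h10
                  exact hWirr _ h10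
              · rcases h12 with h12 | ⟨_, h12 | ⟨h12, h14⟩⟩
                · linarith
                · exfalso
                  rw [← h10, h4] at h12
                  exact hWirr _ h12
                · exact ⟨h10.symm, by omega, by omega⟩
            · rw [h11]
              exact ⟨h4.symm, le_rfl, h5.le⟩
          · rw [← h9]
            exact ⟨rfl, h5.le, le_rfl⟩
      rw [h7] at h6
      exact h6
  refine ⟨{v | v ≠ c}, ?_, htb.subset (Set.subset_univ _), ?_, inferInstance, ?_⟩
  · intro h3
    have : c ∈ {v : X | v ≠ c} := by rw [h3]; trivial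
    exact this rfl
  · exact ray_of_enum x hx (fun v => l v.1) (fun v => hl0 _) hmain
  · intro z
    by_cases hz : z = c
    · rw [Metric.mem_closure_iff]
      intro ε hε
      by_contra hcon
      push Not at hcon
      apply hX0inf
      apply (F3 ε hε).subset
      intro v hv
      refine ⟨hv, ?_⟩
      rw [dist_comm, ← hz]
      exact hcon v hv
    · exact subset_closure hz

end Pool.Agent.R790.Ult
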