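import Pool.Agent.R790.Ult.Basic

/-! Starlike rayless trees as unions of finite branches. -/

set_option autoImplicit false

namespace Pool.Agent.R790.Ult

universe u

/-- coordinates on a starlike rayless tree: height `h`, parent `par` -/
theorem exists_coord {X : Type u} {T : SimpleGraph X} (hT : T.IsTree) {c : X}
    (hdeg : ∀ v, v ≠ c → (T.neighborSet v).encard ≤ 2) :
    ∃ (h : X → ℕ) (par : X → X), (∀ v, h v = 0 ↔ v = c) ∧
      (∀ v, v ≠ c → T.Adj v (par v) ∧ h v = h (par v) + 1) ∧
      (∀ u v, T.Adj u v → (v ≠ c ∧ u = par v) ∨ (u ≠ c ∧ v = par u)) ∧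
      (∀ u v, u ≠ c → v ≠ c → par u ≠ c → par u = par v → u = v) := by
  classical
  let h : X → ℕ := fun v => T.dist c v
  have hc := hT.connected
  have h0 : ∀ v, h v = 0 ↔ v = c := by
    intro v
    show T.dist c v = 0 ↔ _
    rw [hc.dist_eq_zero_iff]
    exact eq_comm
  have hex : ∀ v, v ≠ c → ∃ u, T.Adj v u ∧ h v = h u + 1 := by
    intro v hv
    obtain ⟨p, hp⟩ := hc.exists_walk_length_eq_dist c v
    have hpos : 0 < T.dist c v := Nat.pos_of_ne_zero (fun h1 => hv ((h0 v).1 h1))
    have hnil : ¬ p.Nil := by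
      intro h1
      have := SimpleGraph.Walk.length_eq_zero_iff.2 h1
      omega
    have hadj := (p.adj_penultimate hnil).symm
    refine ⟨p.penultimate, hadj, ?_⟩
    have h1 := SimpleGraph.dist_le (p.take (p.length - 1))
    rw [SimpleGraph.Walk.take_length] at h1
    have h2 : T.dist c p.penultimate ≤ p.length - 1 := h1.trans (min_le_left _ _)
    have h3 := hT.dist_eq_dist_add_one_of_adj c hadj
    show T.dist c v = T.dist c p.penultimate + 1
    rcases h3 with h3 | h3 <;> omega
  have huniq : ∀ v u u', T.Adj v u → T.Adj v u' → h v = h u + 1 → h v = h u' + 1 → u = u' := by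
    intro v u u' hu hu' h1 h2
    have key : ∀ u, T.Adj v u → h v = h u + 1 → ∃ p : T.Walk c u, ∃ hp : T.Adj u v,
        (p.concat hp).IsPath := by
      intro u hu h1
      obtain ⟨p, hp, hp'⟩ := (hc c u).exists_path_of_dist
      refine ⟨p, hu.symm, hp.concat ?_ _⟩
      intro hmem
      have h3 := SimpleGraph.dist_le (p.takeUntil v hmem)
      have h4 := p.length_takeUntil_le_length hmem
      have h5 : T.dist c v = T.dist c u + 1 := h1
      omega
    obtain ⟨p, hp, hp'⟩ := key u hu h1
    obtain ⟨q, hq, hq'⟩ := key u' hu' h2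
    have h3 := (hT.isAcyclic.subsingleton_path c v).elim ⟨_, hp'⟩ ⟨_, hq'⟩
    have h4 := congrArg (fun p : T.Path c v => p.1.penultimate) h3
    simpa using h4
  choose! par hpar1 hpar2 using hex
  refine ⟨h, par, h0, fun v hv => ⟨hpar1 v hv, hpar2 v hv⟩, ?_, ?_⟩
  · intro u v huv
    rcases hT.dist_eq_dist_add_one_of_adj c huv with h1 | h1
    · right
      have h1' : h u = h v + 1 := h1
      have hu : u ≠ c := by
        intro h2
        rw [← h0] at h2
        omega
      exact ⟨hu, huniq u v (par u) huv (hpar1 u hu) h1' (hpar2 u hu)⟩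
    · left
      have h1' : h v = h u + 1 := h1
      have hv : v ≠ c := by
        intro h2
        rw [← h0] at h2
        omega
      exact ⟨hv, huniq v u (par v) huv.symm (hpar1 v hv) h1' (hpar2 v hv)⟩
  · intro u v hu hv hpc huv
    by_contra hne
    set w := par u with hw
    have h1 : T.Adj w u := (hpar1 u hu).symm
    have h2 : T.Adj w v := by rw [huv]; exact (hpar1 v hv).symm
    have h3 : T.Adj w (par w) := hpar1 w hpc
    have h4 : h u = h w + 1 := hpar2 u hu
    have h5 : h v = h w + 1 := by rw [huv]; exact hpar2 v hv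
    have h6 : h w = h (par w) + 1 := hpar2 w hpc
    have h7 : u ≠ par w := by
      intro h8
      rw [← h8] at h6
      omega
    have h8 : v ≠ par w := by
      intro h8
      rw [← h8] at h6
      omega
    have h9 : ({u, v, par w} : Set X) ⊆ T.neighborSet w := by
      rintro z (rfl | rfl | rfl)
      · exact h1
      · exact h2
      · exact h3
    have h10 := (Set.encard_le_encard h9).trans (hdeg w hpc)
    rw [Set.encard_insert_of_notMem (by simp [hne, h7]), Set.encard_pair h8] at h10
    exact absurd h10 (by decide)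

section coord

variable {X : Type u} {T : SimpleGraph X} {c : X} {h : X → ℕ} {par : X → X}
  (h0 : ∀ v, h v = 0 ↔ v = c)
  (h1 : ∀ v, v ≠ c → T.Adj v (par v) ∧ h v = h (par v) + 1)
  (h2 : ∀ u v, u ≠ c → v ≠ c → par u ≠ c → par u = par v → u = v)

include h0 h1

theorem h_iter (v : X) (k : ℕ) (hk : k ≤ h v) : h (par^[k] v) = h v - k := by
  induction k with
  | zero => rfl
  | succ k ih =>
    have h3 := ih (by omega)
    have h4 : par^[k] v ≠ c := by
      intro h5
      rw [← h0] at h5
      omega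
    have h5 := (h1 _ h4).2
    rw [Function.iterate_succ_apply']
    omega

theorem iter_ne (v : X) (k : ℕ) (hk : k < h v) : par^[k] v ≠ c := by
  intro h3
  rw [← h0, h_iter h0 h1 v k hk.le] at h3
  omega

theorem iter_walk (v : X) (k : ℕ) (hk : k ≤ h v) : ∃ p : T.Walk v (par^[k] v), p.IsPath ∧
    ∀ w, w ∈ p.support ↔ ∃ m, m ≤ k ∧ w = par^[m] v := by
  induction k with
  | zero =>
    refine ⟨SimpleGraph.Walk.nil, SimpleGraph.Walk.IsPath.nil, ?_⟩
    intro w
    show w ∈ (SimpleGraph.Walk.nil : T.Walk v v).support ↔ _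
    rw [SimpleGraph.Walk.support_nil, List.mem_singleton]
    constructor
    · rintro rfl
      exact ⟨0, le_rfl, rfl⟩
    · rintro ⟨m, hm, rfl⟩
      rw [Nat.le_zero.1 hm]
      rfl
  | succ k ih =>
    obtain ⟨p, hp, hp'⟩ := ih (by omega)
    have h3 : T.Adj (par^[k] v) (par^[k + 1] v) := by
      rw [Function.iterate_succ_apply']
      exact (h1 _ (iter_ne h0 h1 v k (by omega))).1
    have h4 : par^[k + 1] v ∉ p.support := by
      rw [hp']
      rintro ⟨m, hm, h5⟩
      have h6 := h_iter h0 h1 v (k + 1) hk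
      have h7 := h_iter h0 h1 v m (by omega)
      rw [h5, h7] at h6
      omega
    refine ⟨p.concat h3, hp.concat h4 h3, ?_⟩
    intro w
    rw [SimpleGraph.Walk.support_concat, List.mem_append, hp', List.mem_singleton]
    constructor
    · rintro (⟨m, hm, rfl⟩ | rfl)
      · exact ⟨m, by omega, rfl⟩
      · exact ⟨k + 1, le_rfl, rfl⟩
    · rintro ⟨m, hm, rfl⟩
      rcases Nat.lt_or_ge m (k + 1) with h5 | h5
      · exact Or.inl ⟨m, by omega, rfl⟩
      · right
        rw [le_antisymm hm h5]

/-- the branch of a vertex -/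
def br (h : X → ℕ) (par : X → X) (v : X) : X := par^[h v - 1] v

theorem h_pos {v : X} (hv : v ≠ c) : 0 < h v := Nat.pos_of_ne_zero fun h3 => hv ((h0 v).1 h3)

theorem h_br {v : X} (hv : v ≠ c) : h (br h par v) = 1 := by
  have h3 := h_pos h0 h1 hv
  unfold br
  rw [h_iter h0 h1 v _ (by omega)]
  omega

theorem br_iter (v : X) (k : ℕ) (hk : k < h v) : br h par (par^[k] v) = br h par v := by
  unfold br
  rw [h_iter h0 h1 v k hk.le, ← Function.iterate_add_apply]
  congr 2
  omega

include h2

theorem coord_inj (n : ℕ) : ∀ u v, u ≠ c → v ≠ c → h u = n → h v = n → br h par u = br h par v →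
    u = v := by
  induction n with
  | zero =>
    intro u v hu _ h3 _ _
    exact absurd ((h0 u).1 h3) hu
  | succ n ih =>
    intro u v hu hv h3 h4 h5
    rcases Nat.eq_zero_or_pos n with rfl | hn
    · unfold br at h5
      rw [h3, h4] at h5
      exact h5
    · have h6 := (h1 u hu).2
      have h7 := (h1 v hv).2
      have h8 : par u ≠ c := by
        intro h9
        rw [← h0] at h9
        omega
      have h9 : par v ≠ c := by
        intro h9
        rw [← h0] at h9
        omega
      have h10 : br h par (par u) = br h par u := br_iter h0 h1 u 1 (by omega)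
      have h11 : br h par (par v) = br h par v := br_iter h0 h1 v 1 (by omega)
      have h12 := ih (par u) (par v) h8 h9 (by omega) (by omega) (by rw [h10, h11, h5])
      exact h2 u v hu hv h8 h12

/-- the vertices below `v` on the same branch -/
theorem iter_iff {v w : X} (hv : v ≠ c) (hw : w ≠ c) (k : ℕ) (hk : k < h v) :
    (∃ m, m ≤ k ∧ w = par^[m] v) ↔ (br h par w = br h par v ∧ h v - k ≤ h w ∧ h w ≤ h v) := by
  constructor
  · rintro ⟨m, hm, rfl⟩
    rw [h_iter h0 h1 v m (by omega), br_iter h0 h1 v m (by omega)]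
    exact ⟨rfl, by omega, by omega⟩
  · rintro ⟨h3, h4, h5⟩
    refine ⟨h v - h w, by omega, ?_⟩
    have h6 : 0 < h w := h_pos h0 h1 hw
    apply coord_inj h0 h1 h2 (h w) w _ hw
    · exact iter_ne h0 h1 v _ (by omega)
    · rfl
    · rw [h_iter h0 h1 v _ (by omega)]; omega
    · rw [br_iter h0 h1 v _ (by omega)]; exact h3

omit h2 in
theorem iter_top {v : X} : par^[h v] v = c := by
  rw [← h0, h_iter h0 h1 v _ le_rfl]
  omega

/-- path to the centre -/
theorem path_centre {v : X} (hv : v ≠ c) : ∃ p : T.Walk v c, p.IsPath ∧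
    ∀ w, w ∈ p.support ↔ (w = c ∨ (w ≠ c ∧ br h par w = br h par v ∧ h w ≤ h v)) := by
  obtain ⟨p, hp, hp'⟩ := iter_walk h0 h1 v (h v) le_rfl
  have h3 := iter_top (par := par) h0 h1 (v := v)
  refine ⟨p.copy rfl h3, ?_, ?_⟩
  · rw [SimpleGraph.Walk.isPath_copy]; exact hp
  · intro w
    have h4 : 0 < h v := h_pos h0 h1 hv
    rw [SimpleGraph.Walk.support_copy, hp']
    constructor
    · rintro ⟨m, hm, rfl⟩
      rcases Nat.lt_or_ge m (h v) with h5 | h5
      · right
        have h6 := iter_ne h0 h1 v m h5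
        refine ⟨h6, br_iter h0 h1 v m h5, ?_⟩
        rw [h_iter h0 h1 v m hm]
        omega
      · left
        rw [le_antisymm hm h5]
        exact h3
    · rintro (rfl | ⟨h5, h6, h7⟩)
      · exact ⟨h v, le_rfl, h3.symm⟩
      · have h8 : 0 < h w := h_pos h0 h1 h5
        obtain ⟨m, hm, hm'⟩ := (iter_iff h0 h1 h2 hv h5 (h v - 1) (by omega)).2
          ⟨h6, by omega, h7⟩
        exact ⟨m, by omega, hm'⟩

/-- path inside a branch -/
theorem path_branch {u v : X} (hu : u ≠ c) (hv : v ≠ c) (huv : br h par v = br h par u)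
    (hh : h v < h u) : ∃ p : T.Walk u v, p.IsPath ∧
    ∀ w, w ∈ p.support ↔ (w ≠ c ∧ br h par w = br h par u ∧ h v ≤ h w ∧ h w ≤ h u) := by
  have h4 : 0 < h v := h_pos h0 h1 hv
  obtain ⟨p, hp, hp'⟩ := iter_walk h0 h1 u (h u - h v) (by omega)
  have h3 : par^[h u - h v] u = v := by
    apply coord_inj h0 h1 h2 (h v) _ v _ hv
    · rw [h_iter h0 h1 u _ (by omega)]; omega
    · rfl
    · rw [br_iter h0 h1 u _ (by omega), huv]
    · exact iter_ne h0 h1 u _ (by omega)
  refine ⟨p.copy rfl h3, ?_, ?_⟩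
  · rw [SimpleGraph.Walk.isPath_copy]; exact hp
  · intro w
    rw [SimpleGraph.Walk.support_copy, hp']
    constructor
    · rintro ⟨m, hm, rfl⟩
      have h6 := iter_ne h0 h1 u m (by omega)
      refine ⟨h6, ?_⟩
      have h7 := (iter_iff h0 h1 h2 hu h6 (h u - h v) (by omega)).1 ⟨m, hm, rfl⟩
      exact ⟨h7.1, by omega, h7.2.2⟩
    · rintro ⟨h5, h6, h7, h8⟩
      exact (iter_iff h0 h1 h2 hu h5 (h u - h v) (by omega)).2 ⟨h6, by omega, h8⟩

/-- path between different branches -/
theorem path_diff {u v : X} (hu : u ≠ c) (hv : v ≠ c) (huv : br h par u ≠ br h par v) :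
    ∃ p : T.Walk u v, p.IsPath ∧ ∀ w, w ∈ p.support ↔
      (w = c ∨ (w ≠ c ∧ br h par w = br h par u ∧ h w ≤ h u) ∨
        (w ≠ c ∧ br h par w = br h par v ∧ h w ≤ h v)) := by
  obtain ⟨p, hp, hp'⟩ := path_centre h0 h1 h2 hu
  obtain ⟨q, hq, hq'⟩ := path_centre h0 h1 h2 hv
  refine ⟨p.append q.reverse, ?_, ?_⟩
  · apply append_isPath hp hq.reverse
    intro w hw1 hw2
    rw [SimpleGraph.Walk.support_reverse, List.mem_reverse, hq'] at hw2
    rw [hp'] at hw1
    rcases hw1 with hw1 | ⟨_, hw1, _⟩
    · exact hw1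
    · rcases hw2 with hw2 | ⟨_, hw2, _⟩
      · exact hw2
      · exact absurd (hw1.symm.trans hw2) huv
  · intro w
    rw [SimpleGraph.Walk.mem_support_append_iff, SimpleGraph.Walk.support_reverse,
      List.mem_reverse, hp', hq']
    tauto

end coord

end Pool.Agent.R790.Ult
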